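import Mathlib
import Pool.Agent.N250.WMPLp.G

/-!
# The weak maximizing property fails for `(L_p[0,1], L_q[0,1])`, `1 < p ≤ 2 ≤ q < ∞`,
# `(p,q) ≠ (2,2)`

Proof idea. For `r > 2` let `g_n` be i.i.d. standard Gaussians on `[0,1]` (real or complex),
`K = ‖g_1‖_r` and `S : ℓ₂ → L_r`, `S x = K x_0 + ∑_{n ≥ 1} (n/(n+1)) x_n g_n`. The maximum `M` of
`‖K a + b g_1‖_r` on `|a|² + |b|² = 1` satisfies `M > K` (strict Jensen, after averaging `a, b` over
Gaussians), so `‖S‖ = M` is not attained while `a e_0 + b e_n` is a maximizing sequence which is not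
weakly null. The operators `L_p → L_q` are obtained from `S`, its transpose and the isometric
embeddings of `ℓ₂` into `L_r` spanned by Gaussians.
-/

set_option autoImplicit false

open MeasureTheory Filter Topology
open scoped ENNReal

namespace Pool.Agent.Results.MP_30e1ee_an.NoWMPLpLq

/-- `X_r = L_r[0,1]`, over the scalar field `𝕜`. -/
noncomputable abbrev X (𝕜 : Type) [RCLike 𝕜] (r : ℝ≥0∞) :=
  Lp 𝕜 r ((volume : Measure ℝ).restrict (Set.Icc (0 : ℝ) 1))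

section defs
variable (𝕜 : Type) [RCLike 𝕜] (E F : Type) [NormedAddCommGroup E] [NormedSpace 𝕜 E]
  [NormedAddCommGroup F] [NormedSpace 𝕜 F]

variable {𝕜 E F} in
/-- `T` attains its norm on the unit sphere. -/
def NormAttaining (T : E →L[𝕜] F) : Prop := ∃ x : E, ‖x‖ = 1 ∧ ‖T x‖ = ‖T‖

variable {𝕜 E F} in
/-- `x` is a maximizing sequence for `T`. -/
def IsMaximizing (T : E →L[𝕜] F) (x : ℕ → E) : Prop :=
  (∀ n, ‖x n‖ = 1) ∧ Tendsto (fun n => ‖T (x n)‖) atTop (𝓝 ‖T‖)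

variable {E} in
/-- `x` converges to `0` in the weak topology of `E`. -/
def WeaklyNull (x : ℕ → E) : Prop :=
  ∀ φ : StrongDual 𝕜 E, Tendsto (fun n => φ (x n)) atTop (𝓝 0)

/-- the weak maximizing property of the pair `(E, F)` -/
def WMP : Prop :=
  ∀ T : E →L[𝕜] F, (∃ x : ℕ → E, IsMaximizing T x ∧ ¬ WeaklyNull 𝕜 x) → NormAttaining T

end defs

theorem result (𝕜 : Type) [RCLike 𝕜] (p q : ℝ≥0∞) [Fact (1 ≤ p)] [Fact (1 ≤ q)]
    (hp1 : 1 < p) (hp2 : p ≤ 2) (hq2 : 2 ≤ q) (hq : q < ∞) (hpq : (p, q) ≠ (2, 2)) :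
    ¬ WMP 𝕜 (X 𝕜 p) (X 𝕜 q) := by
  have hbad : Pool.N250.WMPLp.Bad 𝕜 (X 𝕜 p) (X 𝕜 q) := by
    rcases lt_or_eq_of_le hp2 with h | h
    · exact Pool.N250.WMPLp.caseB hp1 h hq.ne
    · rcases lt_or_eq_of_le hq2 with h' | h'
      · exact Pool.N250.WMPLp.caseA hp1 (ne_top_of_le_ne_top (by norm_num) hp2) h' hq.ne
      · exact absurd (by rw [h, ← h']) hpq
  obtain ⟨T, y, φ, hy, hlim, hφ, hna⟩ := hbad
  intro hW
  obtain ⟨z, hz1, hz2⟩ := hW T ⟨y, ⟨hy, hlim⟩, fun h => hφ (h φ)⟩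
  exact hna z hz1 hz2

end Pool.Agent.Results.MP_30e1ee_an.NoWMPLpLq
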